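import Pool.Agent.H92.WC3
import Pool.Agent.H92.WC4

namespace Pool.Agent.Results.MP_dc5a1d_an.Char

open Set Filter Topology Metric Submodule Pool.Agent.H92.WC

variable {X : Type*} [NormedAddCommGroup X] [NormedSpace ℝ X]

lemma near {G G' : StrongDual ℝ X} {ζ R : ℝ} (h : ‖G' - G‖ ≤ ζ) {x : X} (hx : ‖x‖ ≤ R) :
    G x - ζ * R ≤ G' x ∧ G' x ≤ G x + ζ * R := by
  have h1 := ((G' - G).le_opNorm x).trans (mul_le_mul h hx (norm_nonneg _) ((norm_nonneg _).trans h))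
  have h2 := abs_le.1 h1
  simp only [sub_apply] at h2
  constructor <;> linarith [h2.1, h2.2]

theorem nec_kk {t : ℝ} (ht : t ≤ 1) (hC : Conv X t) (Y : Submodule ℝ X) : DualKK Y := by
  intro F0 G0 hF hG pt
  by_contra hn
  obtain ⟨δ, δ0, hδ⟩ : ∃ δ, 0 < δ ∧ ∃ᶠ n in atTop, δ ≤ ‖G0 n - F0‖ := by
    by_contra hc
    push Not at hc
    exact hn (Metric.tendsto_nhds.2 fun ε e => (hc ε e).mono fun n a => by simpa using a)
  have := frequently_iff_neBot.1 hδ
  set V := Ultrafilter.of (atTop ⊓ 𝓟 {n | δ ≤ ‖G0 n - F0‖})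
  have V1 : (V : Filter ℕ) ≤ atTop := (Ultrafilter.of_le _).trans inf_le_left
  have V2 : ∀ᶠ n in V, δ ≤ ‖G0 n - F0‖ := le_principal_iff.1 ((Ultrafilter.of_le _).trans inf_le_right)
  obtain ⟨F, F1, F2⟩ := exists_extension_norm_eq Y F0
  choose G G1 G2 using fun n => exists_extension_norm_eq Y (G0 n)
  have Fn : ‖F‖ ≤ 1 := (F2.trans hF).le
  have Gn : ∀ n, ‖G n‖ ≤ 1 := fun n => ((G2 n).trans (hG n)).le
  have ptV : ∀ x ∈ Y, Tendsto (fun n => G n x) V (𝓝 (F x)) := fun x hx => by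
    have := (pt ⟨x, hx⟩).mono_left V1
    simpa only [← F1, ← G1] using this
  set H : Submodule ℝ X := Y ⊓ LinearMap.ker (F : X →ₗ[ℝ] ℝ)
  have mH : ∀ x, x ∈ H ↔ x ∈ Y ∧ F x = 0 := fun x => Iff.rfl
  have : ∀ k : ℕ, ∃ z ∈ Y, F z = 1 ∧ ‖z‖ ≤ 1 + 1 / (k + 1 : ℝ) := fun k => by
    have p : (0 : ℝ) < 1 / (k + 1) := by positivity
    obtain ⟨x, x1, x2⟩ := F0.exists_lt_apply_of_lt_opNorm (r := 1 / (1 + 1 / (k + 1 : ℝ)))
      (by rw [hF, div_lt_one (by positivity)]; linarith)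
    rw [← F1] at x2
    have x0 : 0 < ‖F x‖ := lt_trans (by positivity) x2
    refine ⟨(F x)⁻¹ • (x : X), smul_mem _ _ x.2, by simp [norm_pos_iff.1 x0], ?_⟩
    rw [norm_smul, norm_inv, inv_mul_le_iff₀ x0]
    rw [div_lt_iff₀ (by positivity)] at x2
    exact (le_of_lt x1).trans x2.le
  choose z zY zF zn using this
  have z2 : ∀ k, ‖z k‖ ≤ 2 := fun k => (zn k).trans (by
    have : 1 / (k + 1 : ℝ) ≤ 1 := by rw [div_le_one (by positivity)]; linarith [(k.cast_nonneg : (0 : ℝ) ≤ k)]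
    linarith)
  have kink : ∀ᶠ n in V, ∃ w ∈ H, ‖w‖ ≤ 1 ∧ δ / 12 ≤ G n w := by
    have := ptV _ (zY 0)
    rw [zF] at this
    filter_upwards [V2, (Metric.tendsto_nhds.1 this) (δ / 4) (by positivity)] with n a b
    obtain ⟨x, x1, x2⟩ := (G0 n - F0).exists_lt_apply_of_lt_opNorm (r := δ / 2) (by linarith)
    obtain ⟨y, yY, y1, y2⟩ : ∃ y ∈ Y, ‖y‖ ≤ 1 ∧ δ / 2 ≤ G n y - F y := by
      rw [sub_apply, ← F1, ← G1, Real.norm_eq_abs, lt_abs] at x2
      rcases x2 with h | h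
      · exact ⟨x, x.2, x1.le, h.le⟩
      · exact ⟨-x, neg_mem x.2, by rw [norm_neg]; exact x1.le, by simp only [map_neg]; linarith⟩
    have y3 := (ab Fn y).trans y1
    refine ⟨(1 / 3 : ℝ) • (y - F y • z 0), smul_mem _ _ ((mH _).2 ⟨sub_mem yY (smul_mem _ _ (zY 0)),
      by simp [zF]⟩), ?_, ?_⟩
    · have := norm_sub_le y (F y • z 0)
      rw [norm_smul, Real.norm_eq_abs] at this
      rw [norm_smul, Real.norm_eq_abs, abs_of_pos (by norm_num)]
      linarith [mul_le_mul y3 (z2 0) (norm_nonneg _) zero_le_one]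
    · simp only [map_smul, map_sub, smul_eq_mul]
      have : |F y * (G n (z 0) - 1)| ≤ 1 * (δ / 4) := by
        rw [abs_mul]; exact mul_le_mul y3 (le_of_lt b) (abs_nonneg _) zero_le_one
      linarith [(abs_le.1 this).2]
  obtain ⟨n0, w0, w0H, w01, w02⟩ := kink.exists
  have δ1 : δ / 12 ≤ 1 := w02.trans ((le1 (Gn _) _).trans w01)
  have w0n : 0 < ‖w0‖ := lt_of_lt_of_le (by positivity) (w02.trans (le1 (Gn _) _))
  set f := z 0 + (4 / ‖w0‖) • w0 with hf
  have fY : f ∈ Y := add_mem (zY 0) (smul_mem _ _ w0H.1)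
  have fF : F f = 1 := by simp [hf, zF, ((mH _).1 w0H).2]
  have f1 : 1 < ‖f‖ := by
    have := norm_sub_le f (z 0)
    rw [hf, add_sub_cancel_left, norm_smul, Real.norm_eq_abs, abs_of_pos (by positivity),
      div_mul_cancel₀ _ w0n.ne'] at this
    linarith [z2 0]
  have hH : ∀ p ∈ H, 1 ≤ ‖f - p‖ := fun p hp => by
    have := le1 Fn (f - p)
    rwa [map_sub, fF, ((mH _).1 hp).2, sub_zero] at this
  set R := ‖f‖ + 2 with hR'
  have R0 : 0 < R := by positivity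
  have hh : ∀ k, f - z k ∈ H := fun k => (mH _).2 ⟨sub_mem fY (zY k), by simp [fF, zF]⟩
  have hR : ∀ k, ‖f - z k‖ ≤ R := fun k => (norm_sub_le _ _).trans (by linarith [z2 k])
  set U := Ultrafilter.of (atTop : Filter ℕ)
  have hl : ∀ ε, 0 < ε → ∀ᶠ k in U, ‖f - (f - z k)‖ ≤ 1 + ε := fun ε e => by
    filter_upwards [Ultrafilter.of_le _ (tendsto_one_div_add_atTop_nhds_zero_nat.eventually
      (eventually_le_nhds e))] with k hk
    rw [sub_sub_cancel]; exact (zn k).trans (add_le_add le_rfl hk)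
  have pH : ∀ x ∈ H, Tendsto (fun n => G n x) V (𝓝 0) := fun x hx => by
    simpa only [((mH _).1 hx).2] using ptV x hx.1
  have pf : ∀ ζ, 0 < ζ → ∀ᶠ n in V, 1 - ζ ≤ G n f := fun ζ e =>
    (ptV f fY).eventually (eventually_ge_nhds (by rw [fF]; linarith))
  by_cases hA : ∀ η, 0 < η → ∀ᶠ n in V, ∀ᶠ k in U, G n (f - z k) ≤ η
  · refine caseA ht hH (by linarith) hh hR U hl (δ := δ / 12 / 8) (by positivity) (by linarith) f1
      (by linarith) (fun E fd hE S hS ζ ζ0 => ?_) hC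
    have : ∀ n, ∃ w ∈ H, ‖w‖ ≤ 1 ∧ ((∃ w ∈ H, ‖w‖ ≤ 1 ∧ δ / 12 ≤ G n w) → δ / 12 ≤ G n w) := fun n => by
      by_cases h : ∃ w ∈ H, ‖w‖ ≤ 1 ∧ δ / 12 ≤ G n w
      · obtain ⟨w, a, b, c⟩ := h; exact ⟨w, a, b, fun _ => c⟩
      · exact ⟨0, zero_mem _, by simp, fun a => absurd a h⟩
    choose w w1 w2 w3 using this
    have : ∀ P : StrongDual ℝ X, ∃ L, Tendsto (fun n => P (w n)) V (𝓝 L) := fun P => by
      obtain ⟨L, -, hL⟩ := (isCompact_Icc (a := -‖P‖) (b := ‖P‖)).ultrafilter_le_nhds (V.map fun n => P (w n))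
        (by rw [le_principal_iff]
            exact Eventually.of_forall (f := (V : Filter ℕ)) fun n => abs_le.1
              ((P.le_opNorm _).trans (mul_le_of_le_one_right (norm_nonneg _) (w2 n))))
      exact ⟨L, hL⟩
    choose L hL using this
    have e1 : ∀ᶠ n in V, ∀ P ∈ S, dist (P (w n)) (L P) < ζ :=
      (eventually_all_finite hS).2 fun P _ => Metric.tendsto_nhds.1 (hL P) ζ ζ0
    obtain ⟨j, hj⟩ := e1.exists
    have zp : 0 < min (ζ / 2 / R) (δ / 12 / 8) := by positivity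
    obtain ⟨n, ⟨G', a1, a2, a3⟩, b1, b2, b3, b4, b5⟩ := ((corr Gn pH E hE zp).and (e1.and (kink.and
      ((pf (ζ / 2) (by positivity)).and ((hA (ζ / 2) (by positivity)).and
      ((pH _ (w1 j)).eventually (eventually_le_nhds (show 0 < δ / 12 / 2 by positivity)))))))).exists
    have a4 := a3.trans (min_le_left _ _)
    have nw : ‖(1 / 2 : ℝ) • (w n - w j)‖ ≤ 1 := by
      rw [norm_smul, Real.norm_eq_abs, abs_of_pos (by norm_num)]
      linarith [norm_sub_le (w n) (w j), w2 n, w2 j]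
    have eR : ζ / 2 / R * R = ζ / 2 := div_mul_cancel₀ _ R0.ne'
    refine ⟨G', (1 / 2 : ℝ) • (w n - w j), a1, a2, ?_, smul_mem _ _ (sub_mem (w1 n) (w1 j)), nw, ?_,
      fun P hP => ?_, b4.mono fun k hk => ?_⟩
    · linarith [(near a4 (x := f) (R := R) (by linarith)).1]
    · have := (near (a3.trans (min_le_right _ _)) nw).1
      simp only [map_smul, map_sub, smul_eq_mul] at this ⊢
      linarith [w3 n b2]
    · have h1 := abs_lt.1 (b1 P hP)
      have h2 := abs_lt.1 (hj P hP)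
      simp only [map_smul, map_sub, smul_eq_mul]
      rw [abs_le]; constructor <;> linarith [h1.1, h1.2, h2.1, h2.2]
    · linarith [(near a4 (hR k)).2]
  · simp only [not_forall] at hA
    obtain ⟨η, η0, hη⟩ := hA
    refine caseB ht hH (by linarith) hh hR U hl (γ := min (η / 2) (‖f‖ - 1)) (lt_min (by positivity) (by linarith))
      (min_le_right _ _) (by linarith) (fun E fd hE ζ ζ0 => ?_) hC
    have zp : 0 < min (ζ / 2 / R) (η / 2 / R) := by positivity
    obtain ⟨n, ⟨G', a1, a2, a3⟩, b3, b4⟩ := ((corr Gn pH E hE zp).and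
      ((pf (ζ / 2) (by positivity)).and (Ultrafilter.eventually_not.2 hη))).exists
    have eR : ζ / 2 / R * R = ζ / 2 := div_mul_cancel₀ _ R0.ne'
    have eR' : η / 2 / R * R = η / 2 := div_mul_cancel₀ _ R0.ne'
    refine ⟨G', a1, a2, ?_, (Ultrafilter.eventually_not.2 b4).mono fun k hk => ?_⟩
    · linarith [(near (a3.trans (min_le_left _ _)) (x := f) (R := R) (by linarith)).1]
    · linarith [(near (a3.trans (min_le_right _ _)) (hR k)).1, min_le_left (η / 2) (‖f‖ - 1), not_le.1 hk]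

lemma res (Y : Submodule ℝ X) (P : StrongDual ℝ X) : ‖P.comp Y.subtypeL‖ ≤ ‖P‖ :=
  ContinuousLinearMap.opNorm_le_bound _ (norm_nonneg _) fun y => P.le_opNorm y

lemma res_top (P : StrongDual ℝ X) : ‖P.comp (⊤ : Submodule ℝ X).subtypeL‖ = ‖P‖ :=
  le_antisymm (res _ P) (ContinuousLinearMap.opNorm_le_bound _ (ContinuousLinearMap.opNorm_nonneg _) fun x =>
    (P.comp (⊤ : Submodule ℝ X).subtypeL).le_opNorm ⟨x, trivial⟩)

lemma of_top (h : DualKK (⊤ : Submodule ℝ X)) : DualKK X := fun F G hF hG pt => by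
  have := h (F.comp (⊤ : Submodule ℝ X).subtypeL) (fun n => (G n).comp (⊤ : Submodule ℝ X).subtypeL)
    (by rw [res_top, hF]) (fun n => by rw [res_top, hG]) fun y => pt y
  simpa only [← ContinuousLinearMap.sub_comp, res_top] using this

lemma sep [TopologicalSpace.SeparableSpace X] (h : DualKK X) (Y : Submodule ℝ X) : DualKK Y := by
  intro F G hF hG pt
  refine tendsto_of_subseq_tendsto fun ns hns => ?_
  choose G' G1 G2 using fun n => exists_extension_norm_eq Y (G (ns n))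
  obtain ⟨L, hL, φ, hφ, lim⟩ := WeakDual.isSeqCompact_closedBall ℝ X 0 1
    (x := fun n => StrongDual.toWeakDual (G' n)) fun n => by simp [G2, hG]
  have p2 : ∀ x, Tendsto (fun n => G' (φ n) x) atTop (𝓝 (WeakDual.toStrongDual L x)) := fun x =>
    ((WeakDual.eval_continuous x).tendsto L).comp lim
  have e : (WeakDual.toStrongDual L).comp Y.subtypeL = F := by
    ext y
    refine tendsto_nhds_unique (p2 y) ?_
    simpa only [G1, Function.comp_def] using ((pt y).comp hns).comp hφ.tendsto_atTop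
  have n1 : ‖WeakDual.toStrongDual L‖ = 1 :=
    le_antisymm (by simpa using hL) (by rw [← hF, ← e]; exact res _ _)
  refine ⟨φ, squeeze_zero (fun _ => norm_nonneg _) (fun n => ?_)
    (h _ (fun n => G' (φ n)) n1 (fun n => (G2 _).trans (hG _)) p2)⟩
  refine le_trans (le_of_eq ?_) (res Y _)
  congr 1
  ext y
  simp [← e, G1]

theorem joined (X : Type*) [NormedAddCommGroup X] [NormedSpace ℝ X] [CompleteSpace X] (t : ℝ)
    (h0 : 0 < t) (h1 : t ≤ 1) :
    (Conv X t ↔ Smooth X ∧ ∀ Y : Submodule ℝ X, IsClosed (Y : Set X) → DualKK Y) ∧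
    (TopologicalSpace.SeparableSpace X → (Conv X t ↔ Smooth X ∧ DualKK X)) :=
  ⟨⟨fun h => ⟨nec_smooth h1 h, fun Y _ => nec_kk h1 h Y⟩, fun h => suff h0 h.1 h.2⟩,
    fun _ => ⟨fun h => ⟨nec_smooth h1 h, of_top (nec_kk h1 h ⊤)⟩, fun h => suff h0 h.1 fun Y _ => sep h.2 Y⟩⟩

theorem result (X : Type*) [NormedAddCommGroup X] [NormedSpace ℝ X] [CompleteSpace X] (t : ℝ)
    (h0 : 0 < t) (h1 : t ≤ 1) :
    Conv X t ↔ Smooth X ∧ ∀ Y : Submodule ℝ X, IsClosed (Y : Set X) → DualKK Y :=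
  (joined X t h0 h1).1

end Pool.Agent.Results.MP_dc5a1d_an.Char
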